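import Pool.Agent.Work.MP_6cc3c8_lc.Fin

/-!
# The Suslin hypothesis at `ℵ₂`, morasses and small non-meagre sets

If there is no `ℵ₂`-Suslin tree then there is no simplified `(ω₁, 1)`-morass, or every set of at most `ℵ₁` reals is
meagre.
-/

namespace Pool.Agent.Results.MP_6cc3c8_lc.SmallNonmeagre

open Cardinal Pool.Agent.Work.MP_6cc3c8_lc

theorem result (hSH : ∀ (T : Type) [PartialOrder T], ¬ IsSuslin T) :
    IsEmpty Morass ∨ ∀ S : Set (ℕ → ℕ), #S ≤ ℵ₁ → IsMeagre S := by
  by_cases h : IsEmpty Morass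
  · exact Or.inl h
  · rw [not_isEmpty_iff] at h
    obtain ⟨M⟩ := h
    refine Or.inr fun S hS => ?_
    by_contra hm
    obtain ⟨T, i, hT⟩ := fin M S hS hm
    exact hSH T hT

end Pool.Agent.Results.MP_6cc3c8_lc.SmallNonmeagre
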